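import Pool.Agent.P8H80.QN.Stm

/-!
# QN: the first order condition
-/

set_option autoImplicit false

namespace Pool.Agent.P8H85.QN

open Pool.Agent.P8H80.QN ComplexConjugate

theorem real_key {M t a b c1 c2 : ℝ} (hM : 0 ≤ M) (ha : 0 ≤ a) (hb : 0 ≤ b) (h1 : 0 ≤ c1) (h2 : 0 ≤ c2)
    (h : ∀ e : ℝ, 0 < e → e ≤ 1 →
      (M + 2 * e * t + e ^ 2 * b) * (1 + e ^ 2 * a) - (e * c1 + e ^ 2 * c2) ^ 2 ≤ M * (1 + e ^ 2 * a) ^ 2) :
    t ≤ 0 := by
  by_contra hcon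
  have ht : 0 < t := not_le.1 hcon
  set K : ℝ := M * a + M * a ^ 2 + (c1 + c2) ^ 2 with hK
  have hK0 : 0 ≤ K := by positivity
  set e : ℝ := min 1 (t / (K + 1)) with he
  have he0 : 0 < e := lt_min one_pos (by positivity)
  have he1 : e ≤ 1 := min_le_left _ _
  have he2 : e * (K + 1) ≤ t := by
    have : e ≤ t / (K + 1) := min_le_right _ _
    rwa [le_div_iff₀ (by positivity)] at this
  have h3 := h e he0 he1
  have h4 : e ^ 2 ≤ 1 := pow_le_one₀ he0.le he1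
  have h5 : (c1 + e * c2) ^ 2 ≤ (c1 + c2) ^ 2 := by
    apply pow_le_pow_left₀ (by positivity)
    nlinarith
  have h6 : M * (e ^ 2 * a ^ 2) ≤ M * a ^ 2 := by
    apply mul_le_mul_of_nonneg_left _ hM
    exact mul_le_of_le_one_left (by positivity) h4
  have h7 : e * (2 * t) ≤ e * (e * K) := by
    have h8 : e * (2 * t) ≤ e ^ 2 * (M * a + M * (e ^ 2 * a ^ 2) + (c1 + e * c2) ^ 2) := by
      have p1 : 0 ≤ e ^ 2 * b := by positivity
      have p2 : 0 ≤ 2 * e * t * (e ^ 2 * a) := by positivity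
      have p3 : 0 ≤ e ^ 2 * b * (e ^ 2 * a) := by positivity
      have id : (M + 2 * e * t + e ^ 2 * b) * (1 + e ^ 2 * a) - (e * c1 + e ^ 2 * c2) ^ 2 - M * (1 + e ^ 2 * a) ^ 2
        = e * (2 * t) + e ^ 2 * b + 2 * e * t * (e ^ 2 * a) + e ^ 2 * b * (e ^ 2 * a)
          - e ^ 2 * (M * a + M * (e ^ 2 * a ^ 2) + (c1 + e * c2) ^ 2) := by ring
      linarith
    have h9 : e ^ 2 * (M * a + M * (e ^ 2 * a ^ 2) + (c1 + e * c2) ^ 2) ≤ e ^ 2 * K := by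
      apply mul_le_mul_of_nonneg_left _ (by positivity)
      rw [hK]
      linarith
    calc e * (2 * t) ≤ e ^ 2 * K := h8.trans h9
      _ = e * (e * K) := by ring
  have h10 : 2 * t ≤ e * K := le_of_mul_le_mul_left h7 he0
  nlinarith

theorem re_le (n : ℕ) (B : E n →L[ℂ] E n) (x : E n) (hx : ‖x‖ = 1) (hxB : inner ℂ x (B x) = 0)
    (h : ∀ z : E n, ‖B z‖ ^ 2 * ‖z‖ ^ 2 - ‖inner ℂ z (B z)‖ ^ 2 ≤ ‖B x‖ ^ 2 * ‖z‖ ^ 4)
    (w : E n) (hw : inner ℂ x w = 0) : (inner ℂ (B x) (B w)).re ≤ 0 := by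
  apply real_key (M := ‖B x‖ ^ 2) (a := ‖w‖ ^ 2) (b := ‖B w‖ ^ 2)
    (c1 := ‖inner ℂ x (B w) + inner ℂ w (B x)‖) (c2 := ‖inner ℂ w (B w)‖) (by positivity) (by positivity)
    (by positivity) (norm_nonneg _) (norm_nonneg _)
  intro e he he1
  have h1 := h (x + (e : ℂ) • w)
  have n1 : ‖x + (e : ℂ) • w‖ ^ 2 = 1 + e ^ 2 * ‖w‖ ^ 2 := by
    rw [@norm_add_sq ℂ, inner_smul_right, hw, hx, norm_smul]
    simp [mul_pow]
  have n2 : ‖B (x + (e : ℂ) • w)‖ ^ 2 = ‖B x‖ ^ 2 + 2 * e * (inner ℂ (B x) (B w)).re + e ^ 2 * ‖B w‖ ^ 2 := by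
    rw [map_add, map_smul, @norm_add_sq ℂ, inner_smul_right, norm_smul]
    simp [mul_pow]
    ring
  have n3 : ‖inner ℂ (x + (e : ℂ) • w) (B (x + (e : ℂ) • w))‖ ≤
      e * ‖inner ℂ x (B w) + inner ℂ w (B x)‖ + e ^ 2 * ‖inner ℂ w (B w)‖ := by
    have : inner ℂ (x + (e : ℂ) • w) (B (x + (e : ℂ) • w)) =
        (e : ℂ) * (inner ℂ x (B w) + inner ℂ w (B x)) + (e : ℂ) ^ 2 * inner ℂ w (B w) := by
      rw [map_add, map_smul, inner_add_left, inner_add_right, inner_add_right, inner_smul_left, inner_smul_left,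
        inner_smul_right, inner_smul_right, hxB, Complex.conj_ofReal]
      ring
    rw [this]
    refine (norm_add_le _ _).trans ?_
    rw [norm_mul, norm_mul, norm_pow, Complex.norm_real, Real.norm_of_nonneg he.le]
  have n4 : ‖x + (e : ℂ) • w‖ ^ 4 = (1 + e ^ 2 * ‖w‖ ^ 2) ^ 2 := by
    rw [← n1]; ring
  rw [n1, n2, n4] at h1
  have n5 := pow_le_pow_left₀ (norm_nonneg _) n3 2
  linarith

theorem t_ORT : S_ORT := by
  intro n B x hx hxB h w hw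
  have h1 := re_le n B x hx hxB h ((conj (inner ℂ (B x) (B w)) : ℂ) • w) (by rw [inner_smul_right, hw, mul_zero])
  rw [map_smul, inner_smul_right, mul_comm, Complex.mul_conj] at h1
  have h2 : Complex.normSq (inner ℂ (B x) (B w)) ≤ 0 := by
    simpa using h1
  exact Complex.normSq_eq_zero.1 (le_antisymm h2 (Complex.normSq_nonneg _))

end Pool.Agent.P8H85.QN
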